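import Mathlib
import Pool.Agent.Helper793_Bricks.DimB
import Pool.Agent.Helper793_Bricks.Plane

set_option autoImplicit false

open CategoryTheory Pool.Agent.Helper793Bricks

namespace Pool.Agent.Results.MP_146384_al.NonrigidPoint

/-- The presentation `f : P → Q` is rigid, that is `E(f, f) = 0`: every `h : P → Q` is
null-homotopic. -/
def Rigid {A P Q : Type} [Ring A] [AddCommGroup P] [Module A P] [AddCommGroup Q] [Module A Q]
    (f : P →ₗ[A] Q) : Prop :=
  ∀ h : P →ₗ[A] Q, ∃ (α : Q →ₗ[A] Q) (β : P →ₗ[A] P), h = α ∘ₗ f + f ∘ₗ β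

/-- Let `k` be an infinite field (for instance an algebraically closed one), `Λ` a
finite-dimensional `k`-algebra, `V₁, V₀, W₁, W₀` finitely generated projective `Λ`-modules and
`x, y ≥ 0` real numbers; put `θ = x ([V₀] - [V₁]) + y ([W₀] - [W₁])` in the real Grothendieck group
of projectives. Suppose that `θ` is never of the form `s [F] + t [G]` with real `s, t ≥ 0` and
presentations `F`, `G` of classes `a ([V₀] - [V₁]) + b ([W₀] - [W₁])`,
`a' ([V₀] - [V₁]) + b' ([W₀] - [W₁])` with `E(F ⊕ G, F ⊕ G) = 0`. Then for some `n` there are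
infinitely many pairwise non-isomorphic bricks of dimension `n`. -/
theorem result :
    ∀ (k : Type) [Field k] [Infinite k] (Λ : Type) [Ring Λ] [Algebra k Λ] [FiniteDimensional k Λ]
      (V₁ V₀ W₁ W₀ : ModuleCat.{0} Λ) [Module.Finite Λ V₁] [Module.Projective Λ V₁]
      [Module.Finite Λ V₀] [Module.Projective Λ V₀] [Module.Finite Λ W₁] [Module.Projective Λ W₁]
      [Module.Finite Λ W₀] [Module.Projective Λ W₀] (x y : ℝ), 0 ≤ x → 0 ≤ y →
      (∀ (a b a' b' : ℕ) (s t : ℝ), 0 ≤ s → 0 ≤ t → x = s * a + t * a' → y = s * b + t * b' →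
        ∀ (F : ((Fin a → V₁) × (Fin b → W₁)) →ₗ[Λ] ((Fin a → V₀) × (Fin b → W₀)))
          (G : ((Fin a' → V₁) × (Fin b' → W₁)) →ₗ[Λ] ((Fin a' → V₀) × (Fin b' → W₀))),
          ¬ Rigid (F.prodMap G)) →
      ∃ n : ℕ, ∀ N : ℕ, ∃ f : Fin N → (Λ →ₐ[k] Matrix (Fin n) (Fin n) k),
        (∀ i : Fin N, ∀ X : Matrix (Fin n) (Fin n) k,
            (∀ a : Λ, X * f i a = f i a * X) → X ≠ 0 → IsUnit X) ∧
        ∀ i j : Fin N, i ≠ j →
          ¬ ∃ P : Matrix (Fin n) (Fin n) k, IsUnit P ∧ ∀ a : Λ, P * f i a = f j a * P := by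
  intro K _ _ A _ _ _ V₁ V₀ W₁ W₀ _ _ _ _ _ _ _ _ x y hx hy hno
  have : IsArtinian A A := isArtinian_of_tower K inferInstance
  have : IsNoetherian A A := isNoetherian_of_tower K inferInstance
  have hinf : ∃ d, (BrCls.{0, 0} A d).Infinite := by
    by_contra hcon
    push Not at hcon
    have h1 : ∀ a b : ℕ, ∃ f : Obj V₁ W₁ a b →ₗ[A] Obj V₀ W₀ a b, E2 f f := by
      intro a b
      have : Module.Projective A (Fin a → V₁) := projPi a
      have : Module.Projective A (Fin b → W₁) := projPi b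
      have : Module.Projective A (Fin a → V₀) := projPi a
      have : Module.Projective A (Fin b → W₀) := projPi b
      have : Module.Projective A (ModuleCat.of A (Obj V₁ W₁ a b)) :=
        inferInstanceAs (Module.Projective A ((Fin a → V₁) × (Fin b → W₁)))
      have : Module.Projective A (ModuleCat.of A (Obj V₀ W₀ a b)) :=
        inferInstanceAs (Module.Projective A ((Fin a → V₀) × (Fin b → W₀)))
      have : Module.Finite A (ModuleCat.of A (Obj V₁ W₁ a b)) :=
        inferInstanceAs (Module.Finite A ((Fin a → V₁) × (Fin b → W₁)))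
      have : Module.Finite A (ModuleCat.of A (Obj V₀ W₀ a b)) :=
        inferInstanceAs (Module.Finite A ((Fin a → V₀) × (Fin b → W₀)))
      exact exists_rigid K (ModuleCat.of A (Obj V₁ W₁ a b)) (ModuleCat.of A (Obj V₀ W₀ a b))
        (Set.Finite.biUnion (Set.finite_Iic _) (fun d _ => hcon d))
    choose R hR using h1
    obtain ⟨a, b, a', b', s, t, hs, ht, e1, e2, h1, h2⟩ :=
      plane_cone (K := K) V₁ V₀ W₁ W₀ R hR _ 1 0 0 1 rfl x y hx hy
    exact hno a b a' b' s t hs ht (by rw [← e1]; push_cast; ring)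
      (by rw [← e2]; push_cast; ring) (R a b) (R a' b')
      (((hR a b).prod_left h2).prod_right (h1.prod_left (hR a' b')))
  obtain ⟨d, hd⟩ := hinf
  exact exists_dim d hd

end Pool.Agent.Results.MP_146384_al.NonrigidPoint
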