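import Mathlib
import Pool.Agent.Helper793_Bricks.DimB

set_option autoImplicit false

open CategoryTheory Pool.Agent.Helper793Bricks

namespace Pool.Agent.Results.MP_146384_al.TwoSimples

/-- Let `k` be an infinite field (for instance an algebraically closed one) and `Λ` a
finite-dimensional `k`-algebra with at most two simple modules up to isomorphism. If `Λ` has
infinitely many bricks, then for some `n` it has infinitely many pairwise non-isomorphic bricks of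
dimension `n`. -/
theorem result :
    ∀ (k : Type) [Field k] [Infinite k] (Λ : Type) [Ring Λ] [Algebra k Λ]
      [FiniteDimensional k Λ],
      (∃ S₁ S₂ : ModuleCat.{0} Λ, ∀ T : ModuleCat.{0} Λ, IsSimpleModule Λ T →
          Nonempty (T ≅ S₁) ∨ Nonempty (T ≅ S₂)) →
      ((∀ B : ℕ, ∃ n : ℕ, B < n ∧ ∃ ρ : Λ →ₐ[k] Matrix (Fin n) (Fin n) k,
          ∀ X : Matrix (Fin n) (Fin n) k, (∀ a : Λ, X * ρ a = ρ a * X) → X ≠ 0 → IsUnit X) ∨
        (∃ n : ℕ, ∀ N : ℕ, ∃ f : Fin N → (Λ →ₐ[k] Matrix (Fin n) (Fin n) k),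
          (∀ i : Fin N, ∀ X : Matrix (Fin n) (Fin n) k,
              (∀ a : Λ, X * f i a = f i a * X) → X ≠ 0 → IsUnit X) ∧
          ∀ i j : Fin N, i ≠ j →
            ¬ ∃ P : Matrix (Fin n) (Fin n) k, IsUnit P ∧ ∀ a : Λ, P * f i a = f j a * P)) →
      ∃ n : ℕ, ∀ N : ℕ, ∃ f : Fin N → (Λ →ₐ[k] Matrix (Fin n) (Fin n) k),
        (∀ i : Fin N, ∀ X : Matrix (Fin n) (Fin n) k,
            (∀ a : Λ, X * f i a = f i a * X) → X ≠ 0 → IsUnit X) ∧
        ∀ i j : Fin N, i ≠ j →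
          ¬ ∃ P : Matrix (Fin n) (Fin n) k, IsUnit P ∧ ∀ a : Λ, P * f i a = f j a * P := by
  intro k _ _ Λ _ _ _ ⟨S₁, S₂, hS⟩ h
  rcases h with h | h
  · have hS' : ∀ (T : Type) [AddCommGroup T] [Module Λ T] [IsSimpleModule Λ T],
        Nonempty (T ≃ₗ[Λ] S₁) ∨ Nonempty (T ≃ₗ[Λ] S₂) := by
      intro T _ _ hT
      rcases hS (ModuleCat.of Λ T) hT with ⟨⟨e⟩⟩ | ⟨⟨e⟩⟩
      · exact Or.inl ⟨e.toLinearEquiv⟩
      · exact Or.inr ⟨e.toLinearEquiv⟩
    have hinf : ∃ d, (BrCls.{0, 0} Λ d).Infinite := by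
      by_contra hcon
      push Not at hcon
      exact allBr_of_unbounded (K := k) h (rank_two (K := k) S₁ S₂ hS' hcon)
    obtain ⟨d, hd⟩ := hinf
    exact exists_dim d hd
  · exact h

end Pool.Agent.Results.MP_146384_al.TwoSimples
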